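import Pool.Agent.TH133.PW.CasB
import Pool.Agent.TH133.PW.Kun

/-!
# The noncommutative conjecture C^+ and errors of small rank
-/

set_option autoImplicit false

open Module Pool.Agent.TH133.PW

universe u v

namespace Pool.Agent.V11322.NC

/-- The data of a smooth proper dg category `𝒜`: the algebra of
the noncommutative correspondences from `𝒜` to itself with rational coefficients, its actions on the
even and the odd part of the periodic cyclic homology, and the Lefschetz formula for the supertraces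
(the number `euler z` is the Euler characteristic of the Hochschild homology of `𝒜` with coefficients
in `z`). -/
structure SmoothProper (k : Type u) [Field k] where
  /-- noncommutative correspondences: `K_0(𝒜^op ⊗ 𝒜)_ℚ` -/
  Corr : Type v
  [ring : Ring Corr]
  [algebra : Algebra ℚ Corr]
  /-- `HP^+(𝒜)` -/
  Plus : Type v
  [plusGroup : AddCommGroup Plus]
  [plusModule : Module k Plus]
  [plusFinite : FiniteDimensional k Plus]
  /-- `HP^-(𝒜)` -/
  Minus : Type v
  [minusGroup : AddCommGroup Minus]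
  [minusModule : Module k Minus]
  [minusFinite : FiniteDimensional k Minus]
  /-- the action on `HP^+(𝒜)` -/
  plus : Corr →+* End k Plus
  /-- the action on `HP^-(𝒜)` -/
  minus : Corr →+* End k Minus
  /-- the Euler characteristic of the Hochschild homology with coefficients in `z` -/
  euler : Corr → ℚ
  supertrace : ∀ z, LinearMap.trace k Plus (plus z) - LinearMap.trace k Minus (minus z) = (euler z : k)

attribute [instance] SmoothProper.ring SmoothProper.algebra SmoothProper.plusGroup SmoothProper.plusModule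
  SmoothProper.plusFinite SmoothProper.minusGroup SmoothProper.minusModule SmoothProper.minusFinite

variable {k : Type u} [Field k]

/-- the operator on `HP^+(𝒜) ⊕ HP^-(𝒜)` induced by a noncommutative correspondence -/
noncomputable def op (𝒜 : SmoothProper.{u, v} k) (z : 𝒜.Corr) : End k (𝒜.Plus × 𝒜.Minus) :=
  (𝒜.plus z).prodMap (𝒜.minus z)

/-- the projector onto `HP^+(𝒜)` -/
def projPlus (𝒜 : SmoothProper.{u, v} k) : End k (𝒜.Plus × 𝒜.Minus) := LinearMap.prodMap 1 0

/-- the projector onto `HP^-(𝒜)` -/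
def projMinus (𝒜 : SmoothProper.{u, v} k) : End k (𝒜.Plus × 𝒜.Minus) := LinearMap.prodMap 0 1

/-- `C_NC(𝒜)`: the Künneth projectors are induced by noncommutative correspondences with rational
coefficients. -/
def Kunneth (𝒜 : SmoothProper.{u, v} k) : Prop :=
  (∃ z, op 𝒜 z = projPlus 𝒜) ∧ ∃ z, op 𝒜 z = projMinus 𝒜

/-- the `k`-linear combinations of noncommutative correspondences -/
noncomputable def combinations (𝒜 : SmoothProper.{u, v} k) : Submodule k (End k (𝒜.Plus × 𝒜.Minus)) :=
  Submodule.span k (Set.range (op 𝒜))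

lemma op_one (𝒜 : SmoothProper.{u, v} k) : op 𝒜 1 = 1 := by
  rw [op, map_one, map_one]
  rfl

lemma op_mul (𝒜 : SmoothProper.{u, v} k) (z w : 𝒜.Corr) : op 𝒜 (z * w) = op 𝒜 z * op 𝒜 w := by
  rw [op, map_mul, map_mul]
  rfl

lemma op_add (𝒜 : SmoothProper.{u, v} k) (z w : 𝒜.Corr) : op 𝒜 (z + w) = op 𝒜 z + op 𝒜 w := by
  rw [op, map_add, map_add]
  rfl

lemma op_sub (𝒜 : SmoothProper.{u, v} k) (z w : 𝒜.Corr) : op 𝒜 (z - w) = op 𝒜 z - op 𝒜 w := by
  rw [op, map_sub, map_sub]
  ext v <;> rfl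

lemma op_smul [CharZero k] (𝒜 : SmoothProper.{u, v} k) (q : ℚ) (z : 𝒜.Corr) :
    op 𝒜 (q • z) = (q : k) • op 𝒜 z := by
  have h1 : 𝒜.plus (q • z) = (q : k) • 𝒜.plus z := by
    have := map_ratCast_smul 𝒜.plus ℚ k q z
    rwa [Rat.cast_id] at this
  have h2 : 𝒜.minus (q • z) = (q : k) • 𝒜.minus z := by
    have := map_ratCast_smul 𝒜.minus ℚ k q z
    rwa [Rat.cast_id] at this
  rw [op, h1, h2]
  ext v <;> simp [op]

lemma one_mem (𝒜 : SmoothProper.{u, v} k) : (1 : End k (𝒜.Plus × 𝒜.Minus)) ∈ combinations 𝒜 :=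
  Submodule.subset_span ⟨1, op_one 𝒜⟩

lemma mul_mem (𝒜 : SmoothProper.{u, v} k) {a b : End k (𝒜.Plus × 𝒜.Minus)} (ha : a ∈ combinations 𝒜)
    (hb : b ∈ combinations 𝒜) : a * b ∈ combinations 𝒜 := by
  have h := Submodule.mul_mem_mul ha hb
  rw [combinations, Submodule.span_mul_span] at h
  refine Submodule.span_mono ?_ h
  rintro _ ⟨_, ⟨z, rfl⟩, _, ⟨w, rfl⟩, rfl⟩
  exact ⟨z * w, op_mul 𝒜 z w⟩

lemma graded (𝒜 : SmoothProper.{u, v} k) {a : End k (𝒜.Plus × 𝒜.Minus)} (ha : a ∈ combinations 𝒜) :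
    (∀ y, (a (y, 0)).2 = 0) ∧ ∀ y', (a (0, y')).1 = 0 := by
  induction ha using Submodule.span_induction with
  | mem a ha =>
    obtain ⟨z, rfl⟩ := ha
    exact ⟨fun y => by simp [op], fun y' => by simp [op]⟩
  | zero => exact ⟨fun y => rfl, fun y' => rfl⟩
  | add a b _ _ iha ihb =>
    refine ⟨fun y => ?_, fun y' => ?_⟩
    · rw [LinearMap.add_apply, Prod.snd_add, iha.1, ihb.1, add_zero]
    · rw [LinearMap.add_apply, Prod.fst_add, iha.2, ihb.2, add_zero]
  | smul c a _ iha =>
    refine ⟨fun y => ?_, fun y' => ?_⟩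
    · rw [LinearMap.smul_apply, Prod.smul_snd, iha.1, smul_zero]
    · rw [LinearMap.smul_apply, Prod.smul_fst, iha.2, smul_zero]

/-- descent from linear combinations to rational correspondences -/
theorem kunneth_of_mem [CharZero k] (𝒜 : SmoothProper.{u, v} k) (h : projPlus 𝒜 ∈ combinations 𝒜) :
    Kunneth 𝒜 := by
  let S : Subalgebra k (End k (𝒜.Plus × 𝒜.Minus)) :=
    (combinations 𝒜).toSubalgebra (one_mem 𝒜) (fun _ _ ha hb => mul_mem 𝒜 ha hb)
  let A : Set S := {x | ∃ z, (x : End k (𝒜.Plus × 𝒜.Minus)) = op 𝒜 z}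
  let p : S := ⟨projPlus 𝒜, h⟩
  have hcomm : ∀ a ∈ combinations 𝒜, projPlus 𝒜 * a = a * projPlus 𝒜 := by
    intro a ha
    apply LinearMap.ext
    rintro ⟨y, y'⟩
    have g := graded 𝒜 ha
    have ev : a (y, y') = a (y, 0) + a (0, y') := by
      rw [← map_add]
      congr 1
      ext <;> simp
    rw [Module.End.mul_apply, Module.End.mul_apply, ev]
    have e1 : projPlus 𝒜 (y, y') = (y, 0) := by simp [projPlus]
    rw [e1]
    apply Prod.ext
    · simp [projPlus, g.2 y']
    · simp [projPlus, g.1 y]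
  have hpA : p ∈ A := by
    refine central_idem_mem (A := A) (K := k) (V := 𝒜.Plus × 𝒜.Minus) (S := S) ?_ ?_ ?_ ?_ ?_
      S.val Subtype.val_injective ?_ ?_ ?_
    · exact ⟨1, (op_one 𝒜).symm⟩
    · rintro x ⟨z, hz⟩ y ⟨w, hw⟩
      exact ⟨z + w, by rw [op_add, ← hz, ← hw]; rfl⟩
    · rintro q x ⟨z, hz⟩
      exact ⟨q • z, by rw [op_smul, ← hz]; rfl⟩
    · rintro x ⟨z, hz⟩ y ⟨w, hw⟩
      exact ⟨z * w, by rw [op_mul, ← hz, ← hw]; rfl⟩
    · rw [eq_top_iff]
      rintro ⟨x, hx⟩ -
      have key : ∀ x (hx : x ∈ combinations 𝒜), (⟨x, hx⟩ : S) ∈ Submodule.span k A := by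
        intro x hx
        induction hx using Submodule.span_induction with
        | mem a ha =>
          obtain ⟨z, rfl⟩ := ha
          exact Submodule.subset_span ⟨z, rfl⟩
        | zero => exact Submodule.zero_mem _
        | add a b ha hb iha ihb => exact Submodule.add_mem _ iha ihb
        | smul c a ha iha => exact Submodule.smul_mem _ c iha
      exact key x hx
    · apply Subtype.ext
      change projPlus 𝒜 * projPlus 𝒜 = projPlus 𝒜
      apply LinearMap.ext
      rintro ⟨y, y'⟩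
      simp [projPlus]
    · intro x
      exact Subtype.ext (hcomm x.1 x.2)
    · rintro x ⟨z, hz⟩
      refine ⟨𝒜.euler z, ?_⟩
      have e1 : S.val (p * x) = (𝒜.plus z).prodMap 0 := by
        change projPlus 𝒜 * x.1 = _
        rw [hz]
        apply LinearMap.ext
        rintro ⟨y, y'⟩
        simp [projPlus, op]
      have e2 : S.val ((1 - p) * x) = (0 : End k 𝒜.Plus).prodMap (𝒜.minus z) := by
        change (1 - projPlus 𝒜) * x.1 = _
        rw [hz]
        apply LinearMap.ext
        rintro ⟨y, y'⟩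
        simp [projPlus, op]
      rw [e1, e2, LinearMap.trace_prodMap', LinearMap.trace_prodMap', map_zero, map_zero, add_zero,
        zero_add, 𝒜.supertrace]
  obtain ⟨z, hz⟩ := hpA
  have hz' : op 𝒜 z = projPlus 𝒜 := hz.symm
  refine ⟨⟨z, hz'⟩, 1 - z, ?_⟩
  rw [op_sub, op_one, hz']
  apply LinearMap.ext
  rintro ⟨y, y'⟩
  rw [LinearMap.sub_apply, Module.End.one_apply]
  simp [projPlus, projMinus]


/-- the operator on `V^N`, `V = Plus ⊕ Minus`, induced by an `N × N` matrix of correspondences -/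
noncomputable def opN (𝒜 : SmoothProper.{u, v} k) (N : ℕ) (z : Fin N → Fin N → 𝒜.Corr) :
    End k (Fin N → 𝒜.Plus × 𝒜.Minus) :=
  LinearMap.pi fun i => ∑ j, (op 𝒜 (z i j)).comp (LinearMap.proj j)

/-- the even projector of `V^N` -/
noncomputable def projN (𝒜 : SmoothProper.{u, v} k) (N : ℕ) :
    End k (Fin N → 𝒜.Plus × 𝒜.Minus) :=
  LinearMap.pi fun i => (projPlus 𝒜).comp (LinearMap.proj i)

/-- the combinations of the operators `opN` -/
noncomputable def combN (𝒜 : SmoothProper.{u, v} k) (N : ℕ) :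
    Submodule k (End k (Fin N → 𝒜.Plus × 𝒜.Minus)) :=
  Submodule.span k (Set.range (opN 𝒜 N))

/-- the component `(i, j)` of an operator -/
noncomputable def comp' (𝒜 : SmoothProper.{u, v} k) (N : ℕ) (i j : Fin N)
    (F : End k (Fin N → 𝒜.Plus × 𝒜.Minus)) : End k (𝒜.Plus × 𝒜.Minus) :=
  (LinearMap.proj i).comp (F.comp (LinearMap.single k (fun _ => 𝒜.Plus × 𝒜.Minus) j))

theorem comp_mem (𝒜 : SmoothProper.{u, v} k) {N : ℕ} {F : End k (Fin N → 𝒜.Plus × 𝒜.Minus)}
    (hF : F ∈ combN 𝒜 N) (i j : Fin N) : comp' 𝒜 N i j F ∈ combinations 𝒜 := by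
  induction hF using Submodule.span_induction with
  | mem F hF =>
    obtain ⟨z, rfl⟩ := hF
    have : comp' 𝒜 N i j (opN 𝒜 N z) = op 𝒜 (z i j) := by
      apply LinearMap.ext
      intro v
      show (opN 𝒜 N z (Pi.single j v)) i = _
      unfold opN
      rw [LinearMap.pi_apply, LinearMap.sum_apply, Finset.sum_eq_single j]
      · rw [LinearMap.comp_apply, LinearMap.proj_apply, Pi.single_eq_same]
      · intro b _ hb
        rw [LinearMap.comp_apply, LinearMap.proj_apply, Pi.single_eq_of_ne hb, map_zero]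
      · intro h
        exact absurd (Finset.mem_univ j) h
    rw [this]
    exact Submodule.subset_span ⟨_, rfl⟩
  | zero =>
    have : comp' 𝒜 N i j 0 = 0 := by
      apply LinearMap.ext
      intro v
      rfl
    rw [this]
    exact Submodule.zero_mem _
  | add a b _ _ iha ihb =>
    have : comp' 𝒜 N i j (a + b) = comp' 𝒜 N i j a + comp' 𝒜 N i j b := by
      apply LinearMap.ext
      intro v
      rfl
    rw [this]
    exact Submodule.add_mem _ iha ihb
  | smul c a _ iha =>
    have : comp' 𝒜 N i j (c • a) = c • comp' 𝒜 N i j a := by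
      apply LinearMap.ext
      intro v
      rfl
    rw [this]
    exact Submodule.smul_mem _ c iha

theorem comp_proj (𝒜 : SmoothProper.{u, v} k) {N : ℕ} (i j : Fin N) :
    comp' 𝒜 N i j (projN 𝒜 N) = if i = j then projPlus 𝒜 else 0 := by
  apply LinearMap.ext
  intro v
  show projPlus 𝒜 ((Pi.single j v : Fin N → 𝒜.Plus × 𝒜.Minus) i) = _
  by_cases h : i = j
  · subst h
    rw [Pi.single_eq_same, if_pos rfl]
  · rw [Pi.single_eq_of_ne h, if_neg h, map_zero]
    rfl

/-- **errors of small rank** -/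
theorem mem_of_rank (𝒜 : SmoothProper.{u, v} k) {N : ℕ} {F : End k (Fin N → 𝒜.Plus × 𝒜.Minus)}
    (hF : F ∈ combN 𝒜 N)
    (hr : finrank k (𝒜.Plus × 𝒜.Minus) * finrank k (LinearMap.range (projN 𝒜 N - F)) < N) :
    projPlus 𝒜 ∈ combinations 𝒜 := by
  classical
  by_contra hcon
  obtain ⟨φ, hφ1, hφ2⟩ := Submodule.exists_dual_map_eq_bot_of_notMem hcon inferInstance
  set E := projN 𝒜 N - F with hE
  set V := 𝒜.Plus × 𝒜.Minus with hV
  have hφ0 : ∀ x ∈ combinations 𝒜, φ x = 0 := by
    intro x hx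
    have h1 : φ x ∈ (combinations 𝒜).map φ := ⟨x, hx, rfl⟩
    rw [hφ2] at h1
    exact h1
  let b := finBasis k V
  let ψ : Fin (finrank k V) → (V →ₗ[k] k) := fun a => φ.comp (LinearMap.smulRightₗ (b.coord a))
  have hψ : ∀ x : End k V, φ x = ∑ a, ψ a (x (b a)) := by
    intro x
    have h1 : x = ∑ a, LinearMap.smulRight (b.coord a) (x (b a)) := by
      apply LinearMap.ext
      intro v
      rw [LinearMap.sum_apply]
      simp only [LinearMap.smulRight_apply, Basis.coord_apply]
      conv_lhs => rw [← b.sum_repr v]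
      rw [map_sum]
      simp only [map_smul]
    conv_lhs => rw [h1]
    rw [map_sum]
    rfl
  have hE' : ∀ i j, φ (comp' 𝒜 N i j E) = if i = j then φ (projPlus 𝒜) else 0 := by
    intro i j
    have h1 : comp' 𝒜 N i j E = comp' 𝒜 N i j (projN 𝒜 N) - comp' 𝒜 N i j F := by
      apply LinearMap.ext
      intro v
      rfl
    rw [h1, map_sub, hφ0 _ (comp_mem 𝒜 hF i j), sub_zero, comp_proj]
    by_cases h : i = j
    · rw [if_pos h, if_pos h]
    · rw [if_neg h, if_neg h, map_zero]
  have happ : ∀ (v : Fin N → V) (i : Fin N), E v i = ∑ j, comp' 𝒜 N i j E (v j) := by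
    intro v i
    conv_lhs => rw [← Finset.univ_sum_single v]
    rw [map_sum, Finset.sum_apply]
    rfl
  let Θ : (Fin (finrank k V) → LinearMap.range E) →ₗ[k] (Fin N → k) :=
    { toFun := fun w i => ∑ a, ψ a ((w a : Fin N → V) i)
      map_add' := by
        intro w w'
        funext i
        simp only [Pi.add_apply, Submodule.coe_add, map_add]
        exact Finset.sum_add_distrib
      map_smul' := by
        intro s w
        funext i
        simp only [Pi.smul_apply, Submodule.coe_smul, map_smul, RingHom.id_apply]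
        rw [Finset.smul_sum] }
  have hΘ : Function.Surjective Θ := by
    intro c
    refine ⟨fun a => ⟨E (fun j => ((φ (projPlus 𝒜))⁻¹ * c j) • b a), ⟨_, rfl⟩⟩, ?_⟩
    funext i
    show ∑ a, ψ a (E (fun j => ((φ (projPlus 𝒜))⁻¹ * c j) • b a) i) = c i
    have h1 : ∀ a, ψ a (E (fun j => ((φ (projPlus 𝒜))⁻¹ * c j) • b a) i) =
        ∑ j, ((φ (projPlus 𝒜))⁻¹ * c j) * ψ a (comp' 𝒜 N i j E (b a)) := by
      intro a
      rw [happ, map_sum]
      refine Finset.sum_congr rfl fun j _ => ?_
      rw [map_smul, map_smul, smul_eq_mul]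
    rw [Finset.sum_congr rfl fun a _ => h1 a, Finset.sum_comm]
    have h2 : ∀ j, ∑ a, ((φ (projPlus 𝒜))⁻¹ * c j) * ψ a (comp' 𝒜 N i j E (b a)) =
        ((φ (projPlus 𝒜))⁻¹ * c j) * (if i = j then φ (projPlus 𝒜) else 0) := by
      intro j
      rw [← Finset.mul_sum, ← hψ, hE']
    rw [Finset.sum_congr rfl fun j _ => h2 j, Finset.sum_eq_single i]
    · rw [if_pos rfl]
      field_simp
    · intro j _ hj
      rw [if_neg (Ne.symm hj), mul_zero]
    · intro h
      exact absurd (Finset.mem_univ i) h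
  have h1 := LinearMap.finrank_le_finrank_of_surjective hΘ
  rw [finrank_fintype_fun_eq_card, Fintype.card_fin, finrank_pi_fintype, Finset.sum_const,
    Finset.card_univ, Fintype.card_fin, smul_eq_mul] at h1
  exact absurd hr (not_lt.2 h1)

/-- if the even projector is given by a correspondence, so are the ones of `V^N` -/
theorem projN_mem (𝒜 : SmoothProper.{u, v} k) (h : ∃ z, op 𝒜 z = projPlus 𝒜) (N : ℕ) :
    projN 𝒜 N ∈ combN 𝒜 N := by
  classical
  obtain ⟨z, hz⟩ := h
  refine Submodule.subset_span ⟨fun i j => if i = j then z else 0, ?_⟩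
  apply LinearMap.ext
  intro v
  funext i
  unfold opN projN
  rw [LinearMap.pi_apply, LinearMap.pi_apply, LinearMap.sum_apply, Finset.sum_eq_single i]
  · beta_reduce
    rw [if_pos rfl, hz]
  · intro j _ hj
    beta_reduce
    rw [if_neg (Ne.symm hj)]
    have : op 𝒜 0 = 0 := by
      rw [op, map_zero, map_zero]
      ext v <;> rfl
    rw [this]
    rfl
  · intro h
    exact absurd (Finset.mem_univ i) h

end Pool.Agent.V11322.NC
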